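import Mathlib

/-!
Diffeomorphisms of a Euclidean space, the stable subgroup, small perturbations of the identity.
-/

set_option autoImplicit false
set_option linter.unusedSectionVars false

open Equiv Metric Filter
open scoped Topology NNReal

namespace Pool.Agent.Lib.MP_a2d0bb_al

variable {E : Type*} [NormedAddCommGroup E] [InnerProductSpace ℝ E] [FiniteDimensional ℝ E]

variable (E) in
/-- The group of diffeomorphisms of class `r`. -/
def Dif (r : ℕ∞) : Subgroup (Perm E) where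
  carrier := {f | ContDiff ℝ r f ∧ ContDiff ℝ r (⇑f⁻¹)}
  one_mem' := ⟨contDiff_id, contDiff_id⟩
  mul_mem' := fun {f g} hf hg => ⟨hf.1.comp hg.1, by
    rw [mul_inv_rev]
    exact hg.2.comp hf.2⟩
  inv_mem' := fun hf => ⟨hf.2, hf.1⟩

variable (E) in
/-- The subgroup generated by the diffeomorphisms that fix a nonempty open set pointwise. -/
def Stb (r : ℕ∞) : Subgroup (Perm E) :=
  Subgroup.closure {f | f ∈ Dif E r ∧ ∃ U : Set E, IsOpen U ∧ U.Nonempty ∧ ∀ x ∈ U, f x = x}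

variable {r r' : ℕ∞} {f g : Perm E}

theorem dif_mono (h : r ≤ r') (hf : f ∈ Dif E r') : f ∈ Dif E r :=
  ⟨hf.1.of_le (by exact_mod_cast h), hf.2.of_le (by exact_mod_cast h)⟩

theorem stb_mono (h : r ≤ r') (hf : f ∈ Stb E r') : f ∈ Stb E r :=
  Subgroup.closure_mono (fun _ hg => And.intro (dif_mono h hg.1) hg.2) hf

theorem stb_dif (hf : f ∈ Stb E r) : f ∈ Dif E r :=
  (Subgroup.closure_le _).2 (fun _ hg => hg.1) hf

theorem stb_in (hf : f ∈ Dif E r) {ε : ℝ} (hε : 0 < ε) (h : ∀ x, ‖x‖ < ε → f x = x) :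
    f ∈ Stb E r :=
  Subgroup.subset_closure ⟨hf, ball 0 ε, isOpen_ball, nonempty_ball.2 hε,
    fun x hx => h x (mem_ball_zero_iff.1 hx)⟩

theorem stb_out [Nontrivial E] (hf : f ∈ Dif E r) {ρ : ℝ} (h : ∀ x, ρ ≤ ‖x‖ → f x = x) :
    f ∈ Stb E r := by
  obtain ⟨y, hy⟩ := NormedSpace.exists_lt_norm ℝ E ρ
  exact Subgroup.subset_closure ⟨hf, {x | ρ < ‖x‖}, isOpen_lt continuous_const continuous_norm,
    ⟨y, hy⟩, fun x hx => h x (le_of_lt hx)⟩

/-- An element that agrees near zero with a stable element is stable. -/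
theorem stb_germ (hf : f ∈ Dif E r) (hg : g ∈ Stb E r) {ε : ℝ} (hε : 0 < ε)
    (h : ∀ x, ‖x‖ < ε → g x = f x) : f ∈ Stb E r := by
  have h1 := mul_mem hg (stb_in (mul_mem (inv_mem (stb_dif hg)) hf) hε fun x hx => by
    rw [Perm.mul_apply, ← h x hx]
    simp)
  rwa [mul_inv_cancel_left] at h1

theorem dif_bd (hf : f ∈ Dif E r) (R : ℝ) : ∃ ρ, ∀ x, ‖x‖ ≤ R → ‖f x‖ ≤ ρ := by
  obtain ⟨ρ, h⟩ := (isCompact_closedBall (0 : E) R).exists_bound_of_continuousOn
    hf.1.continuous.continuousOn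
  exact ⟨ρ, fun x hx => h x (mem_closedBall_zero_iff.2 hx)⟩

theorem dif_lim (h1 : ∀ R : ℝ, ∃ c ∈ Dif E r, ∀ x, ‖x‖ ≤ R → g x = c x)
    (h2 : ∀ R : ℝ, ∃ c ∈ Dif E r, ∀ x, ‖x‖ ≤ R → g⁻¹ x = c x) : g ∈ Dif E r := by
  have key : ∀ g : Perm E, (∀ R : ℝ, ∃ c ∈ Dif E r, ∀ x, ‖x‖ ≤ R → g x = c x) →
      ContDiff ℝ r g := fun g h => contDiff_iff_contDiffAt.2 fun x => by
    obtain ⟨c, c1, c2⟩ := h (‖x‖ + 1)
    refine c1.1.contDiffAt.congr_of_eventuallyEq ?_
    filter_upwards [(isOpen_lt continuous_norm continuous_const).mem_nhds (lt_add_one ‖x‖)]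
      with y hy using c2 y (le_of_lt hy)
  exact ⟨key g h1, key _ h2⟩

theorem pert (hr : r ≠ 0) {u : E → E} (hu : ContDiff ℝ r u) (h : ∀ x, ‖fderiv ℝ u x‖ ≤ 1 / 2) :
    ∃ c ∈ Dif E r, ∀ x, c x = x + u x := by
  have hd := hu.differentiable (by exact_mod_cast hr)
  have hl : LipschitzWith (1 / 2) u :=
    lipschitzWith_of_nnnorm_fderiv_le hd fun x => by exact_mod_cast h x
  have ha : ApproximatesLinearOn (fun x => x + u x)
      (ContinuousLinearEquiv.refl ℝ E : E →L[ℝ] E) Set.univ (1 / 2) := fun x _ y _ => by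
    have := hl.dist_le_mul x y
    rw [dist_eq_norm, dist_eq_norm] at this
    refine le_of_eq_of_le (congrArg norm ?_) this
    simp only [ContinuousLinearEquiv.coe_refl, ContinuousLinearMap.id_apply]
    abel
  have hs : Subsingleton E ∨ (1 / 2 : ℝ≥0) <
      ‖((ContinuousLinearEquiv.refl ℝ E).symm : E →L[ℝ] E)‖₊⁻¹ := by
    rcases subsingleton_or_nontrivial E with h | h
    · exact Or.inl h
    · refine Or.inr ?_
      rw [ContinuousLinearEquiv.refl_symm, ContinuousLinearEquiv.coe_refl,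
        ContinuousLinearMap.nnnorm_id, inv_one]
      norm_num
  let H : E ≃ₜ E := ha.toHomeomorph _ hs
  have hc : ContDiff ℝ r H := contDiff_id.add hu
  refine ⟨H.toEquiv, ⟨hc, H.contDiff_symm (f₀' := fun x => ContinuousLinearEquiv.ofUnit
    (Units.oneSub (-fderiv ℝ u x) (by rw [norm_neg]; linarith [h x]))) (fun x => ?_) hc⟩,
    fun _ => rfl⟩
  refine ((hasFDerivAt_id x).add (hd x).hasFDerivAt).congr_fderiv ?_
  ext y
  simp [ContinuousLinearEquiv.ofUnit]

variable (E) in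
theorem cutoff : ∃ η : ℝ, 0 < η ∧ ∀ (r : ℕ∞) (u : E → E) (ε : ℝ), r ≠ 0 → ContDiff ℝ r u → 0 < ε →
    (∀ x, ‖x‖ < 3 * ε → ‖fderiv ℝ u x‖ ≤ η ∧ ‖u x‖ ≤ 3 * ε * η) →
    ∃ c ∈ Dif E r, (∀ x, ‖x‖ ≤ ε → c x = x + u x) ∧ ∀ x, 2 * ε ≤ ‖x‖ → c x = x := by
  let χ : ContDiffBump (0 : E) := ⟨1, 2, one_pos, one_lt_two⟩
  have χ1 : ContDiff ℝ (⊤ : ℕ∞) χ := χ.contDiff
  obtain ⟨L, hL⟩ := (χ.hasCompactSupport.fderiv ℝ).exists_bound_of_continuous
    (χ1.continuous_fderiv (by simp))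
  have L0 : 0 ≤ L := (norm_nonneg _).trans (hL 0)
  refine ⟨1 / (2 * (1 + 3 * L)), by positivity, fun r u ε hr hu hε h => ?_⟩
  have n1 : ∀ x : E, ‖ε⁻¹ • x‖ = ‖x‖ / ε := fun x => by
    rw [norm_smul, Real.norm_of_nonneg (by positivity), inv_mul_eq_div]
  have z : ∀ x : E, 2 * ε ≤ ‖x‖ → χ (ε⁻¹ • x) = 0 := fun x hx => χ.zero_of_le_dist (by
    rw [dist_zero_right, n1, le_div_iff₀ hε]
    exact hx)
  obtain ⟨c, c1, c2⟩ := pert (u := fun x => χ (ε⁻¹ • x) • u x) hr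
    (((χ1.of_le (by exact_mod_cast le_top)).comp (contDiff_id.const_smul _)).smul hu) fun x => by
      by_cases hx : ‖x‖ < 3 * ε
      · have d1 : HasFDerivAt (fun x : E => χ (ε⁻¹ • x))
            ((fderiv ℝ χ (ε⁻¹ • x)).comp (ε⁻¹ • ContinuousLinearMap.id ℝ E)) x :=
          (χ1.differentiable (by simp) _).hasFDerivAt.comp x ((hasFDerivAt_id x).const_smul _)
        rw [(d1.fun_smul (hu.differentiable (by exact_mod_cast hr) x).hasFDerivAt).fderiv]
        have b1 : ‖χ (ε⁻¹ • x) • fderiv ℝ u x‖ ≤ 1 * (1 / (2 * (1 + 3 * L))) := by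
          rw [norm_smul, Real.norm_of_nonneg χ.nonneg]
          exact mul_le_mul χ.le_one (h x hx).1 (norm_nonneg _) zero_le_one
        have b2 : ‖(fderiv ℝ χ (ε⁻¹ • x)).comp (ε⁻¹ • ContinuousLinearMap.id ℝ E)‖ ≤
            L * (ε⁻¹ * 1) := by
          refine (ContinuousLinearMap.opNorm_comp_le _ _).trans
            (mul_le_mul (hL _) ?_ (norm_nonneg _) L0)
          rw [norm_smul, Real.norm_of_nonneg (by positivity)]
          exact mul_le_mul_of_nonneg_left ContinuousLinearMap.norm_id_le (by positivity)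
        refine (norm_add_le _ _).trans ?_
        rw [ContinuousLinearMap.norm_smulRight_apply]
        refine (add_le_add b1 (mul_le_mul b2 (h x hx).2 (norm_nonneg _)
          (by positivity))).trans (le_of_eq ?_)
        field_simp
      · have e : (fun x => χ (ε⁻¹ • x) • u x) =ᶠ[𝓝 x] fun _ => 0 := by
          filter_upwards [(isOpen_lt continuous_const continuous_norm).mem_nhds
            (show 2 * ε < ‖x‖ by linarith)] with y hy
          rw [z y (le_of_lt hy), zero_smul]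
        rw [e.fderiv_eq]
        simp
  refine ⟨c, c1, fun x hx => ?_, fun x hx => by rw [c2, z x hx, zero_smul, add_zero]⟩
  rw [c2, χ.one_of_mem_closedBall, one_smul]
  rw [mem_closedBall_zero_iff, n1, div_le_iff₀ hε]
  exact hx.trans_eq (one_mul _).symm

end Pool.Agent.Lib.MP_a2d0bb_al
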