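import Mathlib

/-!
Supports of permutations and infinite products of permutations with disjoint supports.
-/

set_option autoImplicit false

open Equiv

namespace Pool.Agent.Lib.MP_a2d0bb_al

variable {X I I' : Type*}

/-- The permutations that fix all points outside `U`. -/
def Sup (U : Set X) : Subgroup (Perm X) where
  carrier := {f | ∀ x, x ∉ U → f x = x}
  one_mem' := fun _ _ => rfl
  mul_mem' := fun {f g} hf hg x hx => by rw [Perm.mul_apply, hg x hx, hf x hx]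
  inv_mem' := fun {f} hf x hx => Perm.inv_eq_iff_eq.2 (hf x hx).symm

section

variable {U V D : Set X} {f g e e' : Perm X} {x : X}

theorem sup_map (hf : f ∈ Sup U) (hx : x ∈ U) : f x ∈ U := by
  by_contra h
  exact h ((f.injective (hf _ h)).symm ▸ hx)

theorem sup_mono (hf : f ∈ Sup U) (h : ∀ x ∈ U, x ∈ V) : f ∈ Sup V :=
  fun x hx => hf x fun h' => hx (h x h')

theorem sup_comm (hf : f ∈ Sup U) (hg : g ∈ Sup V) (h : ∀ x ∈ U, x ∉ V) : Commute f g := by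
  refine Equiv.ext fun x => ?_
  rw [Perm.mul_apply, Perm.mul_apply]
  by_cases hx : x ∈ U
  · rw [hg x (h x hx), hg _ (h _ (sup_map hf hx))]
  · rw [hf x hx]
    by_cases hv : x ∈ V
    · exact hf _ fun h' => h _ h' (sup_map hg hv)
    · rw [hg x hv, hf x hx]

theorem sup_conj (hf : f ∈ Sup U) (h : ∀ x ∈ U, e x ∈ V) : e * f * e⁻¹ ∈ Sup V := fun x hx => by
  rw [Perm.mul_apply, Perm.mul_apply, hf _ fun h' => hx (by simpa using h _ h')]
  simp

theorem sup_cong (hf : f ∈ Sup U) (h : ∀ x ∈ U, e x = e' x) : e * f * e⁻¹ = e' * f * e'⁻¹ := by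
  have h1 : e'⁻¹ * e ∈ Sup Uᶜ := fun x hx => by
    rw [Perm.mul_apply, h x (not_not.1 hx)]
    simp
  have h2 := (sup_comm hf h1 fun x hx h' => h' hx).eq
  calc e * f * e⁻¹ = e' * (e'⁻¹ * e * f) * e⁻¹ := by group
    _ = _ := by rw [← h2]; group

end

/-- `g` is the product of the family `F`. -/
def Pr (F : I → Perm X) (g : Perm X) : Prop :=
  ∀ x, (∀ i, F i x ≠ x → g x = F i x) ∧ ((∀ i, F i x = x) → g x = x)

/-- Pairwise disjoint sets. -/
def Dj (U : I → Set X) : Prop := ∀ i j x, x ∈ U i → x ∈ U j → i = j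

/-- Outside `D` the permutation is glued from the family. -/
def Gl (D : Set X) (U : I → Set X) : Subgroup ((I → Perm X) × Perm X) where
  carrier := {p | (∀ i, p.1 i ∈ Sup (U i)) ∧ (∀ i, ∀ x ∈ U i, p.2 x = p.1 i x) ∧
    p.2 ∈ Sup (D ∪ ⋃ i, U i)}
  one_mem' := ⟨fun _ => one_mem _, fun _ _ _ => rfl, one_mem _⟩
  mul_mem' := fun {p q} hp hq => ⟨fun i => mul_mem (hp.1 i) (hq.1 i), fun i x hx => by
    change p.2 (q.2 x) = p.1 i (q.1 i x)
    rw [hq.2.1 i x hx, hp.2.1 i _ (sup_map (hq.1 i) hx)], mul_mem hp.2.2 hq.2.2⟩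
  inv_mem' := fun {p} hp => ⟨fun i => inv_mem (hp.1 i), fun i x hx => by
    change p.2⁻¹ x = (p.1 i)⁻¹ x
    rw [Perm.inv_eq_iff_eq, hp.2.1 i _ (sup_map (inv_mem (hp.1 i)) hx)]
    simp, inv_mem hp.2.2⟩

variable {U : I → Set X} {D : Set X} {F F' : I → Perm X} {g g' e : Perm X} {x : X}

theorem Pr.uniq (h : Pr F g) (h' : Pr F g') : g = g' := Equiv.ext fun x => by
  by_cases hx : ∀ i, F i x = x
  · rw [(h x).2 hx, (h' x).2 hx]
  · obtain ⟨i, hi⟩ := not_forall.1 hx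
    rw [(h x).1 i hi, (h' x).1 i hi]

theorem Pr.conj (h : Pr F g) (e : Perm X) : Pr (fun i => e * F i * e⁻¹) (e * g * e⁻¹) := by
  intro x
  simp only [Perm.mul_apply]
  refine ⟨fun i hi => ?_, fun hi => ?_⟩
  · rw [(h _).1 i fun h' => hi (by rw [h']; simp)]
  · rw [(h _).2 fun i => e.injective (by rw [hi i]; simp)]
    simp

theorem Pr.cong (h : Pr F g) (e : ∀ i, F' i = F i) : Pr F' g := (funext e : F' = F) ▸ h

theorem Pr.idx {F₁ : I' → Perm X} (h : Pr F g) (k : I' → I) (h1 : ∀ j, F₁ j = F (k j))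
    (h2 : ∀ i, F i = 1 ∨ ∃ j, i = k j) : Pr F₁ g := fun x =>
  ⟨fun j hj => by rw [h1] at hj ⊢; exact (h x).1 _ hj, fun hj => (h x).2 fun i => by
    rcases h2 i with h3 | ⟨j, rfl⟩
    · rw [h3]; rfl
    · rw [← h1]; exact hj j⟩

theorem Pr.idx' {F₁ : I' → Perm X} (h : Pr F₁ g) (k : I' → I) (h1 : ∀ j, F₁ j = F (k j))
    (h2 : ∀ i, F i = 1 ∨ ∃ j, i = k j) : Pr F g := fun x =>
  ⟨fun i hi => by
    rcases h2 i with h3 | ⟨j, rfl⟩
    · exact (hi (by rw [h3]; rfl)).elim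
    · rw [← h1] at hi ⊢; exact (h x).1 _ hi, fun hi => (h x).2 fun j => by rw [h1]; exact hi _⟩

theorem Pr.on (h : Pr F g) (hU : Dj U) (hF : ∀ i, F i ∈ Sup (U i)) {i : I} (hx : x ∈ U i) :
    g x = F i x := by
  by_cases hi : F i x = x
  · rw [hi]
    refine (h x).2 fun j => ?_
    by_cases hj : x ∈ U j
    · rw [hU j i x hj hx, hi]
    · exact hF j x hj
  · exact (h x).1 i hi

theorem Pr.sup (h : Pr F g) {V : Set X} (hF : ∀ i, F i ∈ Sup V) : g ∈ Sup V :=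
  fun x hx => (h x).2 fun i => hF i x hx

theorem Pr.gl (h : Pr F g) (hU : Dj U) (hF : ∀ i, F i ∈ Sup (U i)) : (F, g) ∈ Gl D U :=
  ⟨hF, fun _ _ hx => h.on hU hF hx, h.sup fun i =>
    sup_mono (hF i) fun _ hx => Or.inr (Set.mem_iUnion.2 ⟨i, hx⟩)⟩

theorem pr_of (hF : ∀ i, F i ∈ Sup (U i)) (h1 : ∀ i, ∀ x ∈ U i, g x = F i x)
    (h2 : ∀ x, (∀ i, x ∉ U i) → g x = x) : Pr F g := fun x =>
  ⟨fun i hi => h1 i x (by_contra fun h => hi (hF i x h)), fun hi => by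
    by_cases hx : ∃ i, x ∈ U i
    · obtain ⟨i, hx⟩ := hx
      rw [h1 i x hx, hi]
    · exact h2 x (not_exists.1 hx)⟩

theorem gl_pr (h : (F, g) ∈ Gl ∅ U) : Pr F g :=
  pr_of h.1 h.2.1 fun x hx => h.2.2 x (by simpa using hx)

theorem Pr.mul (h : Pr F g) (h' : Pr F' g') (hU : Dj U) (hF : ∀ i, F i ∈ Sup (U i))
    (hF' : ∀ i, F' i ∈ Sup (U i)) : Pr (fun i => F i * F' i) (g * g') :=
  gl_pr (mul_mem (h.gl hU hF) (h'.gl hU hF'))

theorem Pr.inv (h : Pr F g) (hU : Dj U) (hF : ∀ i, F i ∈ Sup (U i)) :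
    Pr (fun i => (F i)⁻¹) g⁻¹ := gl_pr (inv_mem (h.gl hU hF))

theorem ex_pr (hU : Dj U) (hF : ∀ i, F i ∈ Sup (U i)) : ∃ g, Pr F g := by
  classical
  have key : ∀ F : I → Perm X, ∃ u : X → X, (∀ i, ∀ x ∈ U i, u x = F i x) ∧
      ∀ x, (∀ i, x ∉ U i) → u x = x := fun F =>
    ⟨fun x => if h : ∃ i, x ∈ U i then F h.choose x else x, fun i x hx => by
      have h : ∃ i, x ∈ U i := ⟨i, hx⟩
      beta_reduce
      rw [dif_pos h, hU _ i x h.choose_spec hx], fun x hx => dif_neg (not_exists.2 hx)⟩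
  have inv : ∀ (F : I → Perm X) (u v : X → X), (∀ i, F i ∈ Sup (U i)) →
      (∀ i, ∀ x ∈ U i, u x = F i x) → (∀ x, (∀ i, x ∉ U i) → u x = x) →
      (∀ i, ∀ x ∈ U i, v x = (F i)⁻¹ x) → (∀ x, (∀ i, x ∉ U i) → v x = x) → ∀ x, v (u x) = x := by
    intro F u v hF u1 u2 v1 v2 x
    by_cases hx : ∃ i, x ∈ U i
    · obtain ⟨i, hx⟩ := hx
      rw [u1 i x hx, v1 i _ (sup_map (hF i) hx)]
      simp
    · rw [u2 x (not_exists.1 hx), v2 x (not_exists.1 hx)]
  obtain ⟨u, u1, u2⟩ := key F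
  obtain ⟨v, v1, v2⟩ := key fun i => (F i)⁻¹
  exact ⟨⟨u, v, inv F u v hF u1 u2 v1 v2,
    inv (fun i => (F i)⁻¹) v u (fun i => inv_mem (hF i)) v1 v2 u1 u2⟩, pr_of hF u1 u2⟩

theorem gl_dec (h : (F, g) ∈ Gl D U) (hU : Dj U) (h' : Pr F g') : g * g'⁻¹ ∈ Sup D := by
  have h1 := mul_mem h (inv_mem (h'.gl (D := D) hU h.1))
  intro x hx
  by_cases hi : ∃ i, x ∈ U i
  · obtain ⟨i, hi⟩ := hi
    refine (h1.2.1 i x hi).trans ?_
    simp
  · exact h1.2.2 x (by simpa [hx] using hi)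

theorem gl_one (hg : g ∈ Sup D) (h : ∀ i, ∀ x ∈ U i, x ∉ D) : ((1 : I → Perm X), g) ∈ Gl D U :=
  ⟨fun _ => one_mem _, fun i x hx => hg x (h i x hx), sup_mono hg fun _ hx => Or.inl hx⟩

theorem pr_one [DecidableEq I] (i : I) (f : Perm X) : Pr (fun j => if j = i then f else 1) f :=
  fun x => ⟨fun j hj => by
    by_cases h : j = i
    · simp [h]
    · exact (hj (by simp [h])).elim, fun h => by simpa using h i⟩

/-- `g` agrees on every ball with an element of `G`. -/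
def Lim (ν : X → ℝ) (G : Subgroup (Perm X)) (g : Perm X) : Prop :=
  ∀ R, ∃ c ∈ G, ∀ x, ν x ≤ R → g x = c x

theorem Pr.lim {ν : X → ℝ} {G : Subgroup (Perm X)} (h : Pr F g) (hU : Dj U)
    (hF : ∀ i, F i ∈ Sup (U i)) (hG : ∀ i, F i ∈ G)
    (hf : ∀ R, {i | F i ≠ 1 ∧ ∃ x ∈ U i, ν x ≤ R}.Finite) : Lim ν G g := by
  classical
  have s1 : ∀ (s : Finset I) i, (if i ∈ s then F i else 1) ∈ Sup (U i) := fun s i => by
    split_ifs
    exacts [hF i, one_mem _]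
  have key : ∀ s : Finset I, ∃ c ∈ G, Pr (fun i => if i ∈ s then F i else 1) c := fun s => by
    induction s using Finset.induction_on with
    | empty => exact ⟨1, one_mem _, fun x => ⟨fun i hi => (hi (by simp)).elim, fun _ => rfl⟩⟩
    | insert j s hj ih =>
      obtain ⟨c, c1, c2⟩ := ih
      refine ⟨F j * c, mul_mem (hG j) c1, ((pr_one j (F j)).mul c2 hU (fun i => ?_)
        (s1 _)).cong fun i => ?_⟩
      · split_ifs with h
        exacts [h ▸ hF j, one_mem _]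
      · by_cases h : i = j
        · simp [h, hj]
        · simp [h]
  intro R
  obtain ⟨c, c1, c2⟩ := key (hf R).toFinset
  refine ⟨c, c1, fun x hx => ?_⟩
  by_cases hi : ∃ i, x ∈ U i
  · obtain ⟨i, hi⟩ := hi
    rw [h.on hU hF hi, c2.on hU (s1 _) hi]
    split_ifs with h1
    · rfl
    · rw [by_contra fun h2 => h1 ((Set.Finite.mem_toFinset _).2 ⟨h2, x, hi, hx⟩)]
  · rw [(h x).2 fun i => hF i x (not_exists.1 hi i),
      (c2 x).2 fun i => s1 _ i x (not_exists.1 hi i)]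

end Pool.Agent.Lib.MP_a2d0bb_al
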