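import Pool.Agent.Lib.MP_a2d0bb_al.Lin
import Pool.Agent.Lib.MP_a2d0bb_al.Fil.Abs2

/-!
The stable groups of a Euclidean space satisfy the axioms of the abstract theorem.
-/

set_option autoImplicit false
set_option linter.unusedSectionVars false

open Equiv Metric Filter
open scoped Topology

namespace Pool.Agent.Lib.MP_a2d0bb_al

variable {E : Type*} [NormedAddCommGroup E] [InnerProductSpace ℝ E] [FiniteDimensional ℝ E]
  [Nontrivial E] {r : ℕ∞} {f g : Perm E}

theorem stb_conj (hg : g ∈ Dif E r) (hf : f ∈ Stb E r) : g * f * g⁻¹ ∈ Stb E r := by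
  induction hf using Subgroup.closure_induction with
  | mem f h =>
    obtain ⟨h1, U, h2, ⟨y, h3⟩, h4⟩ := h
    exact Subgroup.subset_closure ⟨mul_mem (mul_mem hg h1) (inv_mem hg), ⇑g⁻¹ ⁻¹' U,
      h2.preimage hg.2.continuous, ⟨g y, by simpa using h3⟩, fun x hx => by
        rw [Perm.mul_apply, Perm.mul_apply, h4 _ hx]
        simp⟩
  | one => simp
  | mul f k _ _ h3 h4 =>
    exact (by group : g * f * g⁻¹ * (g * k * g⁻¹) = g * (f * k) * g⁻¹) ▸ mul_mem h3 h4
  | inv f _ h => exact (by group : (g * f * g⁻¹)⁻¹ = g * f⁻¹ * g⁻¹) ▸ inv_mem h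

theorem ex_pow (R : ℝ) : ∃ k : ℤ, R < 8 ^ k := by
  obtain ⟨k, hk⟩ := pow_unbounded_of_one_lt R (by norm_num : (1 : ℝ) < 8)
  exact ⟨k, by rwa [zpow_natCast]⟩

theorem frame {a : Perm E} (ha : a ∈ Dif E r) (h8 : ∀ x, ‖a x‖ = 8 * ‖x‖) :
    ∃ π τ, Fil.Fr (fun k : ℤ => ball (0 : E) (8 ^ k)) (Stb E r) a π τ := by
  obtain ⟨π, p1, p2, p3, p4, -⟩ := push E (u := 1) (x := 8) (y := 64) (v := 65) one_pos
    (by norm_num) (by norm_num) (by norm_num)
  obtain ⟨t, t1, -, t3, t4, -⟩ := push E (u := 1 / 2) (x := 1) (y := 3) (v := 4) (by norm_num)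
    (by norm_num) (by norm_num) (by norm_num)
  obtain ⟨p, hp⟩ := exists_norm_eq E (zero_le_two (α := ℝ))
  have ta : ∀ x, (Equiv.addRight p * t * (Equiv.addRight p)⁻¹) x = t (x - p) + p := fun x => by
    simp [sub_eq_add_neg]
  refine ⟨π, Equiv.addRight p * t * (Equiv.addRight p)⁻¹,
    { mono := fun k l h => ball_subset_ball (zpow_le_zpow_right₀ (by norm_num) h)
      cov := fun x => (ex_pow ‖x‖).imp fun _ h => mem_ball_zero_iff.2 h
      bd := fun g hg k => ?_
      loc := fun f h1 h2 => stb_lim (fun R => ?_) fun R => ?_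
      germ := fun f hf => ?_
      nor := fun g hg => ⟨stb_conj ha hg, stb_conj (inv_mem ha) hg⟩
      dil := fun k x => ?_
      pm := stb_mono le_top p1
      ps := fun x hx => ?_
      pp := fun x hx => ?_
      tm := stb_mono le_top (mul_mem (mul_mem (tr_stb p) t1) (inv_mem (tr_stb p)))
      ts := fun x hx => ?_
      tw := fun n x hx => ?_ }⟩
  · obtain ⟨ρ, h⟩ := dif_bd (stb_dif hg) (8 ^ k)
    obtain ⟨l, hl⟩ := ex_pow ρ
    exact ⟨l, fun x hx => mem_ball_zero_iff.2 ((h x (mem_ball_zero_iff.1 hx).le).trans_lt hl)⟩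
  · obtain ⟨k, hk⟩ := ex_pow R
    obtain ⟨c, c1, c2⟩ := h1 k
    exact ⟨c, c1, fun x hx => c2 x (mem_ball_zero_iff.2 (hx.trans_lt hk))⟩
  · obtain ⟨k, hk⟩ := ex_pow R
    obtain ⟨l, hl⟩ := h2 k
    obtain ⟨c, c1, c2⟩ := h1 l
    refine ⟨c⁻¹, inv_mem c1, fun x hx => (Perm.inv_eq_iff_eq.2 ?_).symm⟩
    rw [← c2 _ (hl _ (by simpa using hx.trans_lt hk))]
    simp
  · obtain ⟨c, c1, ρ, c2, c3⟩ := stb_cut hf 1
    obtain ⟨l, hl⟩ := ex_pow ρ
    exact ⟨c, c1, 0, l, fun x hx => c3 x (hl.le.trans (by simpa using hx)),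
      fun x hx => c2 x (le_of_lt (by simpa using hx))⟩
  · rw [mem_ball_zero_iff, mem_ball_zero_iff, h8, zpow_add_one₀ (by norm_num), mul_comm]
    exact mul_lt_mul_iff_left₀ (by norm_num)
  · by_cases h : ‖x‖ ≤ 1
    · exact p2 x h
    · refine p3 x (by_contra fun h' => hx ⟨mem_ball_zero_iff.2 ?_, by simpa using (not_le.1 h).le⟩)
      norm_num
      linarith
  · have := (p4 x).1 (by simpa using hx)
    rw [mem_ball_zero_iff, not_lt]
    norm_num
    exact this
  · have h : 8 ≤ ‖x‖ := by simpa using hx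
    rw [ta, t3 _ (by linarith [norm_sub_norm_le x p]), sub_add_cancel]
  · have h : ‖x‖ < 1 := by simpa using hx
    have k : 3 ≤ ‖((Equiv.addRight p * t * (Equiv.addRight p)⁻¹) ^ (n + 1)) x - p‖ := by
      induction n with
      | zero =>
        rw [zero_add, pow_one, ta, add_sub_cancel_right]
        exact (t4 _).1 (by linarith [norm_sub_norm_le p x, norm_sub_rev x p])
      | succ n ih =>
        rw [pow_succ', Perm.mul_apply _ (_ ^ _), ta, add_sub_cancel_right]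
        exact (t4 _).1 (by linarith)
    rw [mem_ball_zero_iff, zpow_zero, not_lt]
    linarith [norm_sub_le (((Equiv.addRight p * t * (Equiv.addRight p)⁻¹) ^ (n + 1)) x) p]

/-- Universal words for the stable groups. -/
theorem univ_stb (s : ℕ → Perm E) (hs : ∀ i, s i ∈ Stb E r) : ∃ a ∈ Stb E r, ∃ b ∈ Stb E r, ∀ i,
    FreeGroup.lift ![a, b] (Fil.uw (FreeGroup.of 0) (FreeGroup.of 1) i) = s i := by
  obtain ⟨a, a1, a2⟩ := dil_stb (E := E) (t := 8) (by norm_num)
  obtain ⟨π, τ, F⟩ := frame (r := r) (stb_dif (stb_mono le_top a1)) fun x => by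
    rw [a2, norm_smul, Real.norm_ofNat]
  obtain ⟨a', h1, b, h2, h3⟩ := F.univ (stb_mono le_top a1) s hs
  exact ⟨a', h1, b, h2, fun i => by simpa [Fil.map_uw] using h3 i⟩

theorem det_pos (hr : r ≠ 0) (hf : f ∈ Dif E r) (y : E) (h : 0 < (fderiv ℝ f y).det) :
    f ∈ Stb E r := by
  refine (stb_iff hr).2 ⟨hf, fun x => by_contra fun h' => ?_⟩
  obtain ⟨z, hz⟩ := intermediate_value_univ x y (ContinuousLinearMap.continuous_det.comp
    (hf.1.continuous_fderiv (by exact_mod_cast hr))) ⟨not_lt.1 h', h.le⟩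
  have := det_inv hr hf z
  rw [show (fderiv ℝ f z).det = 0 from hz, mul_zero] at this
  exact zero_ne_one this

/-- Two generators for the full groups. -/
theorem full_dif (hr : r ≠ 0) (s : ℕ → Perm E) (hs : ∀ i, s i ∈ Dif E r) :
    ∃ a ∈ Dif E r, ∃ b ∈ Dif E r, ∀ i, s i ∈ Subgroup.closure {a, b} := by
  obtain ⟨d, d1, d2⟩ := dil_stb (E := E) (t := 8) (by norm_num)
  obtain ⟨v, hv⟩ := exists_ne (0 : E)
  let ρ := (ℝ ∙ v)ᗮ.reflection
  have r1 : ρ.toContinuousLinearEquiv.toLinearEquiv.toEquiv ∈ Dif E r := lin_dif _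
  have d3 := stb_mono (r := r) le_top d1
  have a1 := mul_mem (stb_dif d3) r1
  have a2 : ∀ x, (fderiv ℝ (⇑(d * ρ.toContinuousLinearEquiv.toLinearEquiv.toEquiv)) x).det < 0 :=
    fun x => by
      rw [det_mul hr (stb_dif d3) r1]
      refine mul_neg_of_pos_of_neg (((stb_iff hr).1 d3).2 _) ?_
      have e : (fderiv ℝ ρ.toContinuousLinearEquiv x).det = -1 := by
        rw [ContinuousLinearEquiv.fderiv]
        refine (Submodule.det_reflection _).trans ?_
        rw [Submodule.orthogonal_orthogonal, finrank_span_singleton hv, pow_one]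
      exact e.trans_lt neg_one_lt_zero
  obtain ⟨π, τ, F⟩ := frame a1 fun x => by
    rw [Perm.mul_apply, d2, norm_smul, Real.norm_ofNat]
    exact congrArg _ (ρ.norm_map x)
  generalize d * ρ.toContinuousLinearEquiv.toLinearEquiv.toEquiv = a at a1 a2 F
  obtain ⟨ψ, h1, b, h2, h3⟩ := F.full s fun i => by
    have e := det_mul hr (mul_mem (hs i) (inv_mem a1)) a1 (a⁻¹ 0)
    rw [inv_mul_cancel_right, show a (a⁻¹ 0) = 0 by simp] at e
    by_cases h : s i ∈ Stb E r
    · exact Or.inl h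
    refine Or.inr (det_pos hr (mul_mem (hs i) (inv_mem a1)) 0 (by_contra fun h' => h ?_))
    refine det_pos hr (hs i) (a⁻¹ 0) (lt_of_le_of_ne
      (e ▸ mul_nonneg_of_nonpos_of_nonpos (not_lt.1 h') (a2 _).le) fun z => ?_)
    have n := det_inv hr (hs i) (a⁻¹ 0)
    rw [← z, mul_zero] at n
    exact zero_ne_one n
  refine ⟨ψ * a * ψ⁻¹, mul_mem (mul_mem (stb_dif h1) a1) (inv_mem (stb_dif h1)), b, stb_dif h2,
    fun i => ?_⟩
  generalize ψ * a * ψ⁻¹ = c at h3
  have m1 : c ∈ Subgroup.closure {c, b} := Subgroup.subset_closure (by simp)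
  have m2 : b ∈ Subgroup.closure {c, b} := Subgroup.subset_closure (by simp)
  have m : Fil.uw c b i ∈ Subgroup.closure {c, b} :=
    Fil.map_uw (Subgroup.closure {c, b}).subtype ⟨c, m1⟩ ⟨b, m2⟩ i ▸ Subtype.prop _
  rcases h3 i with h | h <;> rw [h]
  exacts [m, mul_mem m m1]

end Pool.Agent.Lib.MP_a2d0bb_al
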