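import Pool.Agent.Lib.MP_a2d0bb_al.Rad

/-!
The stable group: translations, linear maps, orientation, extension of germs.
-/

set_option autoImplicit false
set_option linter.unusedSectionVars false

open Equiv Metric Filter
open scoped Topology NNReal

namespace Pool.Agent.Lib.MP_a2d0bb_al

variable {E : Type*} [NormedAddCommGroup E] [InnerProductSpace ℝ E] [FiniteDimensional ℝ E]
  [Nontrivial E] {r : ℕ∞} {f g : Perm E}

variable (E) in
/-- Compactly supported maps that are small translations near zero. -/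
theorem tr_small : ∃ δ : ℝ, 0 < δ ∧ ∀ (ε : ℝ) (y : E), 0 < ε → ‖y‖ ≤ ε * δ → ∃ c ∈ Stb E ⊤,
    (∀ x, ‖x‖ ≤ ε → c x = x + y) ∧ ∀ x, 2 * ε ≤ ‖x‖ → c x = x := by
  obtain ⟨η, h0, h⟩ := cutoff E
  refine ⟨η, h0, fun ε y hε hy => ?_⟩
  obtain ⟨c, c1, c2, c3⟩ := h ⊤ (fun _ => y) ε (by simp) contDiff_const hε fun x _ =>
    ⟨by simpa using h0.le, by nlinarith [mul_pos hε h0]⟩
  exact ⟨c, stb_out c1 c3, c2, c3⟩

theorem tr_cpt (y : E) : ∃ c ∈ Stb E ⊤, ∃ ρ : ℝ,
    (∀ x, ‖x‖ ≤ 1 → c x = x + y) ∧ ∀ x, ρ ≤ ‖x‖ → c x = x := by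
  obtain ⟨δ, h0, h⟩ := tr_small E
  have p : 0 ≤ ‖y‖ / δ := by positivity
  obtain ⟨c, c1, c2, c3⟩ := h (1 + ‖y‖ / δ) y (by positivity) (by
    rw [add_mul, div_mul_cancel₀ _ h0.ne']
    linarith)
  exact ⟨c, c1, _, fun x hx => c2 x (by linarith), c3⟩

theorem tr_stb (y : E) : Equiv.addRight y ∈ Stb E ⊤ := by
  obtain ⟨c, c1, ρ, c2, -⟩ := tr_cpt y
  exact stb_germ ⟨contDiff_id.add contDiff_const, contDiff_id.add contDiff_const⟩ c1 one_pos
    fun x hx => c2 x hx.le

variable (E) in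
theorem near : ∃ η : ℝ, 0 < η ∧ ∀ (r : ℕ∞) (f : Perm E), r ≠ 0 → f ∈ Dif E r → f 0 = 0 →
    ‖fderiv ℝ f 0 - ContinuousLinearMap.id ℝ E‖ < η → f ∈ Stb E r := by
  obtain ⟨η, h0, h⟩ := cutoff E
  refine ⟨η, h0, fun r f hr hf f0 h1 => ?_⟩
  have hu : ContDiff ℝ r fun x => f x - x := hf.1.sub contDiff_id
  have hd := hu.differentiable (by exact_mod_cast hr)
  have e : fderiv ℝ (fun x => f x - x) 0 = fderiv ℝ f 0 - ContinuousLinearMap.id ℝ E :=
    ((hf.1.differentiable (by exact_mod_cast hr) 0).hasFDerivAt.sub (hasFDerivAt_id 0)).fderiv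
  obtain ⟨δ, d0, d1⟩ := Metric.eventually_nhds_iff_ball.1
    ((hu.continuous_fderiv (by exact_mod_cast hr)).norm.continuousAt.eventually_lt
      (continuousAt_const (y := η)) (e ▸ h1 : ‖fderiv ℝ (fun x => f x - x) 0‖ < η))
  obtain ⟨c, c1, c2, c3⟩ := h r (fun x => f x - x) (δ / 3) hr hu (by positivity) fun x hx => by
    have hx' : x ∈ ball (0 : E) δ := mem_ball_zero_iff.2 (by linarith)
    refine ⟨(d1 x hx').le, ?_⟩
    have := (convex_ball (0 : E) δ).norm_image_sub_le_of_norm_fderiv_le (𝕜 := ℝ)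
      (fun y _ => hd y) (fun y hy => (d1 y hy).le) (mem_ball_self d0) hx'
    simp only [f0, sub_zero] at this
    nlinarith
  exact stb_germ hf (stb_out c1 c3) (by positivity : 0 < δ / 3) fun x hx => by
    rw [c2 x hx.le, add_sub_cancel]

theorem lin_dif (A : E ≃L[ℝ] E) : A.toLinearEquiv.toEquiv ∈ Dif E r :=
  ⟨A.contDiff, A.symm.contDiff⟩

/-- Two linear maps differ by a stable diffeomorphism. -/
def Rel (A B : E →L[ℝ] E) : Prop := ∃ g ∈ Stb E ⊤, ∀ x, g (A x) = B x

theorem Rel.trans {A B C : E →L[ℝ] E} (h : Rel A B) (h' : Rel B C) : Rel A C := by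
  obtain ⟨g, g1, g2⟩ := h
  obtain ⟨k, k1, k2⟩ := h'
  exact ⟨k * g, mul_mem k1 g1, fun x => by rw [Perm.mul_apply, g2, k2]⟩

theorem Rel.symm {A B : E →L[ℝ] E} (h : Rel A B) : Rel B A := by
  obtain ⟨g, g1, g2⟩ := h
  exact ⟨g⁻¹, inv_mem g1, fun x => Perm.inv_eq_iff_eq.2 (g2 x).symm⟩

theorem rel_of {s : Set (E →L[ℝ] E)} (hs : IsPreconnected s) (h : ∀ A ∈ s, A.det ≠ 0)
    {A B : E →L[ℝ] E} (hA : A ∈ s) (hB : B ∈ s) : Rel A B := by
  obtain ⟨η, h0, hη⟩ := near E
  refine hs.induction₂ Rel (fun A hA => ?_) (fun _ _ _ _ _ _ => Rel.trans)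
    (fun _ _ _ _ => Rel.symm) hA hB
  let A' := A.toContinuousLinearEquivOfDetNeZero (h A hA)
  have c : Continuous fun B : E →L[ℝ] E =>
      ‖B.comp (A'.symm : E →L[ℝ] E) - ContinuousLinearMap.id ℝ E‖ := by fun_prop
  have e : A.comp (A'.symm : E →L[ℝ] E) = ContinuousLinearMap.id ℝ E :=
    ContinuousLinearMap.ext fun x => A'.apply_symm_apply x
  filter_upwards [mem_nhdsWithin_of_mem_nhds (c.continuousAt.eventually_lt
    (continuousAt_const (y := η)) (x₀ := A) (by simpa [e] using h0)), self_mem_nhdsWithin]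
    with B h1 h2
  let C := A'.symm.trans (B.toContinuousLinearEquivOfDetNeZero (h B h2))
  exact ⟨C.toLinearEquiv.toEquiv, hη ⊤ _ (by simp) (lin_dif C) (map_zero C)
    ((C.fderiv (x := 0)).symm ▸ h1), fun x => congrArg B (A'.symm_apply_apply x)⟩

open Matrix in
theorem refl_mul {n : Type} [Fintype n] [DecidableEq n] (i j : n) (h : i ≠ j) :
    (transvection i j 1 * transvection j i (-1) * transvection i j 1) *
      (transvection i j 1 * transvection j i (-1) * transvection i j 1) =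
    (diagonal fun k => if k = i then (-1 : ℝ) else 1) *
      diagonal fun k => if k = j then (-1 : ℝ) else 1 := by
  simp only [transvection, mul_add, add_mul, mul_one, one_mul, single_mul_single_same,
    diagonal_mul_diagonal]
  ext k l
  simp only [diagonal_apply, Matrix.add_apply, Matrix.one_apply, Matrix.single_apply]
  by_cases h1 : i = k <;> by_cases h2 : j = k <;> by_cases h3 : i = l <;>
    by_cases h4 : j = l <;> simp_all [eq_comm]

open Matrix in
theorem rel_pos {A : E →L[ℝ] E} (hA : 0 < A.det) : Rel (ContinuousLinearMap.id ℝ E) A := by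
  let b := Module.finBasis ℝ E
  let T : Matrix _ _ ℝ ≃ₗ[ℝ] E →L[ℝ] E := (toLin b b).trans LinearMap.toContinuousLinearMap
  have t1 : T 1 = ContinuousLinearMap.id ℝ E := ContinuousLinearMap.ext fun x => by simp [T]
  have t2 : ∀ M, (T M).det = M.det := fun M => LinearMap.det_toLin b M
  let P := fun M => Rel (ContinuousLinearMap.id ℝ E) (T M)
  have mul : ∀ M N, P M → P N → P (M * N) := by
    rintro M N ⟨g, g1, g2⟩ ⟨k, k1, k2⟩
    refine ⟨g * k, mul_mem g1 k1, fun x => ?_⟩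
    rw [Perm.mul_apply, k2]
    exact (g2 _).trans (LinearMap.congr_fun (toLin_mul b b b M N) x).symm
  have seg : ∀ M, (∀ s t : ℝ, 0 ≤ s → 0 ≤ t → s + t = 1 → (s • 1 + t • M).det ≠ 0) → P M :=
    fun M h => rel_of (convex_segment _ _).isPreconnected (by
      rintro _ ⟨s, t, h1, h2, h3, rfl⟩
      rw [← t1, ← map_smul, ← map_smul, ← map_add, t2]
      exact h s t h1 h2 h3) (left_mem_segment ℝ _ _) (right_mem_segment ℝ _ _)
  have tv : ∀ i j, i ≠ j → ∀ c, P (transvection i j c) := fun i j h c => seg _ fun s t _ _ e => by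
    rw [transvection, smul_add, ← add_assoc, ← add_smul, e, one_smul, smul_single]
    exact (det_transvection_of_ne i j h _).trans_ne one_ne_zero
  have dg : ∀ D, (∀ i, 0 < D i) → P (diagonal D) := fun D h => seg _ fun s t h1 h2 e => by
    rw [← diagonal_one, ← diagonal_smul, ← diagonal_smul, diagonal_add, det_diagonal]
    refine Finset.prod_ne_zero_iff.2 fun i _ => ne_of_gt ?_
    have := h i
    simp only [Pi.smul_apply, smul_eq_mul, mul_one]
    rcases h1.eq_or_lt with h3 | h3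
    · rw [← h3, zero_add] at e ⊢
      rwa [e, one_mul]
    · positivity
  let R := fun i : Fin (Module.finrank ℝ E) => diagonal fun k => if k = i then (-1 : ℝ) else 1
  have rr : ∀ i j, P (R i * R j) := fun i j => by
    by_cases h : i = j
    · rw [h, diagonal_mul_diagonal]
      exact dg _ fun k => by split_ifs <;> norm_num
    have m := mul _ _ (mul _ _ (tv i j h 1) (tv j i (Ne.symm h) (-1))) (tv i j h 1)
    exact (refl_mul i j h ▸ mul _ _ m m : P (R i * R j))
  let S := fun s : Finset (Fin (Module.finrank ℝ E)) =>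
    diagonal fun k => if k ∈ s then (-1 : ℝ) else 1
  have sg : ∀ s, (0 < (S s).det → P (S s)) ∧ ((S s).det < 0 → ∀ i, P (R i * S s)) := fun s => by
    induction s using Finset.induction_on with
    | empty => exact ⟨fun _ => dg _ (by simp), fun h => absurd h (by simp [S])⟩
    | insert j s hj ih =>
      have e : S (insert j s) = R j * S s := by
        rw [diagonal_mul_diagonal]
        refine congrArg diagonal (funext fun k => ?_)
        by_cases h : k = j <;> simp [h, hj]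
      have d : (R j).det = -1 := by simp [R, det_diagonal]
      rw [e, det_mul, d]
      exact ⟨fun h => ih.2 (by linarith) j, fun h i => mul_assoc (R i) _ _ ▸
        mul _ _ (rr i j) (ih.1 (by linarith))⟩
  obtain ⟨M, rfl⟩ := T.surjective A
  refine diagonal_transvection_induction P M (fun D hD => ?_) (fun t => tv _ _ t.hij _) mul
  rw [← t2 M] at hD
  have d0 : ∀ i, D i ≠ 0 := fun i =>
    Finset.prod_ne_zero_iff.1 (det_diagonal (d := D) ▸ (hD ▸ hA).ne') i (Finset.mem_univ i)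
  have e : diagonal D = diagonal (fun i => |D i|) * S (Finset.univ.filter fun i => D i < 0) := by
    rw [diagonal_mul_diagonal]
    refine congrArg diagonal (funext fun k => ?_)
    by_cases h : D k < 0
    · simp [h, abs_of_neg h]
    · simp [h, abs_of_nonneg (not_lt.1 h)]
  have p : ∀ i, 0 < |D i| := fun i => abs_pos.2 (d0 i)
  rw [e, det_mul, det_diagonal] at hD
  exact e ▸ mul _ _ (dg _ p) ((sg _).1
    ((mul_pos_iff_of_pos_left (Finset.prod_pos fun i _ => p i)).1 (hD ▸ hA)))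

theorem det_mul (hr : r ≠ 0) (hf : f ∈ Dif E r) (hg : g ∈ Dif E r) (x : E) :
    (fderiv ℝ (⇑(f * g)) x).det = (fderiv ℝ f (g x)).det * (fderiv ℝ g x).det := by
  rw [Perm.coe_mul, fderiv_comp x (hf.1.differentiable (by exact_mod_cast hr) _)
    (hg.1.differentiable (by exact_mod_cast hr) _)]
  exact LinearMap.det_comp _ _

theorem det_inv (hr : r ≠ 0) (hf : f ∈ Dif E r) (x : E) :
    (fderiv ℝ (⇑f⁻¹) (f x)).det * (fderiv ℝ f x).det = 1 := by
  rw [← det_mul hr (inv_mem hf) hf, inv_mul_cancel, Perm.coe_one, fderiv_id]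
  exact LinearMap.det_id

/-- The stable diffeomorphisms are the orientation preserving ones. -/
theorem stb_iff (hr : r ≠ 0) : f ∈ Stb E r ↔ f ∈ Dif E r ∧ ∀ x, 0 < (fderiv ℝ f x).det := by
  refine ⟨fun h => ⟨stb_dif h, ?_⟩, fun ⟨h1, h2⟩ => ?_⟩
  · induction h using Subgroup.closure_induction with
    | mem f h =>
      obtain ⟨h1, U, h2, ⟨y, h3⟩, h4⟩ := h
      have e : (fderiv ℝ f y).det = 1 := by
        rw [(show ⇑f =ᶠ[𝓝 y] id from eventually_of_mem (h2.mem_nhds h3) h4).fderiv_eq, fderiv_id]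
        exact LinearMap.det_id
      intro x
      by_contra h
      obtain ⟨z, hz⟩ := intermediate_value_univ x y (ContinuousLinearMap.continuous_det.comp
        (h1.1.continuous_fderiv (by exact_mod_cast hr))) ⟨not_lt.1 h, zero_le_one.trans e.ge⟩
      have := det_inv hr h1 z
      rw [show (fderiv ℝ f z).det = 0 from hz, mul_zero] at this
      exact zero_ne_one this
    | one =>
      intro x
      rw [Perm.coe_one, fderiv_id]
      exact zero_lt_one.trans_eq LinearMap.det_id.symm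
    | mul f g h1 h2 h3 h4 =>
      exact fun x => (mul_pos (h3 _) (h4 _)).trans_eq (det_mul hr (stb_dif h1) (stb_dif h2) x).symm
    | inv f h1 h2 =>
      intro x
      have := det_inv hr (stb_dif h1) (f⁻¹ x)
      rw [show f (f⁻¹ x) = x by simp] at this
      exact (mul_pos_iff_of_pos_right (h2 _)).1 (zero_lt_one.trans_eq this.symm)
  obtain ⟨η, h0, hη⟩ := near E
  obtain ⟨g, g1, g2⟩ := rel_pos (h2 0)
  let A := (fderiv ℝ f 0).toContinuousLinearEquivOfDetNeZero (h2 0).ne'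
  have e : g = A.toLinearEquiv.toEquiv := Equiv.ext g2
  have m := mul_mem (stb_mono (r := r) le_top (tr_stb (f 0))) (stb_mono le_top g1)
  have k : ⇑((Equiv.addRight (f 0) * g)⁻¹ * f) = fun x => A.symm (f x - f 0) := funext fun x => by
    rw [Perm.mul_apply, Perm.inv_eq_iff_eq, Perm.mul_apply, e]
    simp
  have := mul_mem m (hη r _ hr (mul_mem (inv_mem (stb_dif m)) h1) (by rw [k]; simp) (by
    rw [k]
    change ‖fderiv ℝ (⇑A.symm ∘ fun x => f x - f 0) 0 - _‖ < _
    rw [(A.symm.hasFDerivAt.comp 0 ((h1.1.differentiable (by exact_mod_cast hr)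
      0).hasFDerivAt.sub_const (f 0))).fderiv, show (A.symm : E →L[ℝ] E).comp (fderiv ℝ f 0) =
      ContinuousLinearMap.id ℝ E from ContinuousLinearMap.ext fun x => A.symm_apply_apply x]
    simpa using h0))
  rwa [mul_inv_cancel_left] at this

theorem dil_stb {t : ℝ} (ht : 0 < t) : ∃ a ∈ Stb E ⊤, ∀ x, a x = t • x := by
  obtain ⟨g, g1, g2⟩ := rel_pos (A := t • ContinuousLinearMap.id ℝ E) (by
    change 0 < LinearMap.det (t • LinearMap.id : E →ₗ[ℝ] E)
    rw [LinearMap.det_smul, LinearMap.det_id, mul_one]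
    positivity)
  exact ⟨g, g1, g2⟩

/-- A stable diffeomorphism agrees on every ball with a compactly supported one. -/
theorem stb_cut (hf : f ∈ Stb E r) (R : ℝ) : ∃ c ∈ Stb E r, ∃ ρ : ℝ,
    (∀ x, ‖x‖ ≤ R → c x = f x) ∧ ∀ x, ρ ≤ ‖x‖ → c x = x := by
  induction hf using Subgroup.closure_induction generalizing R with
  | mem f h =>
    obtain ⟨h1, U, h2, ⟨y, h3⟩, h4⟩ := h
    obtain ⟨δ, d0, d1⟩ := Metric.isOpen_iff.1 h2 y h3
    obtain ⟨t, t1, ρ, t2, t3⟩ := tr_cpt y
    have p : 0 < min (δ / 2) 1 := lt_min (half_pos d0) one_pos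
    obtain ⟨k, k1, -, k2, -, k3⟩ := push E (half_pos p) (half_lt_self p)
      ((min_le_right _ _).trans (le_max_right R 1)) (lt_add_one _)
    have m : t * k⁻¹ ∈ Dif E r := stb_dif (stb_mono le_top (mul_mem t1 (inv_mem k1)))
    have o : ∀ x, max ρ (max R 1 + 1) ≤ ‖x‖ → (t * k⁻¹) x = x := fun x hx => by
      rw [Perm.mul_apply, Perm.inv_eq_iff_eq.2 (k2 x (le_of_max_le_right hx)).symm,
        t3 x (le_of_max_le_left hx)]
    obtain ⟨ρ', b⟩ := dif_bd h1 (max ρ (max R 1 + 1))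
    have o' : ∀ x, max (max ρ (max R 1 + 1)) (ρ' + 1) ≤ ‖x‖ →
        (f * (t * k⁻¹)⁻¹ * f⁻¹ * (t * k⁻¹)) x = x := fun x hx => by
      have : max ρ (max R 1 + 1) ≤ ‖f⁻¹ x‖ := by
        by_contra h
        have := b _ (not_le.1 h).le
        rw [show f (f⁻¹ x) = x by simp] at this
        linarith [le_of_max_le_right hx]
      rw [Perm.mul_apply, o x (le_of_max_le_left hx), Perm.mul_apply, Perm.mul_apply,
        Perm.inv_eq_iff_eq.2 (o _ this).symm]
      simp
    refine ⟨_, stb_out (mul_mem (mul_mem (mul_mem h1 (inv_mem m)) (inv_mem h1)) m) o', _,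
      fun x hx => ?_, o'⟩
    have s : ‖k⁻¹ x‖ ≤ min (δ / 2) 1 := (k3 _).2 (by simpa using Or.inl hx)
    have u : (t * k⁻¹) x ∈ U := d1 (by
      rw [Perm.mul_apply, t2 _ (s.trans (min_le_right _ _)), mem_ball_iff_norm, add_sub_cancel_right]
      linarith [min_le_left (δ / 2) 1])
    rw [Perm.mul_apply, Perm.mul_apply, Perm.mul_apply, Perm.inv_eq_iff_eq.2 (h4 _ u).symm]
    simp
  | one => exact ⟨1, one_mem _, 0, fun _ _ => rfl, fun _ _ => rfl⟩
  | mul f g _ h2 h3 h4 =>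
    obtain ⟨ρ, b⟩ := dif_bd (stb_dif h2) R
    obtain ⟨c, c1, ρ1, c2, c3⟩ := h3 ρ
    obtain ⟨d, d1, ρ2, d2, d3⟩ := h4 R
    exact ⟨c * d, mul_mem c1 d1, max ρ1 ρ2, fun x hx => by
      rw [Perm.mul_apply, d2 x hx, c2 _ (b x hx), Perm.mul_apply], fun x hx => by
      rw [Perm.mul_apply, d3 x (le_of_max_le_right hx), c3 x (le_of_max_le_left hx)]⟩
  | inv f h1 h2 =>
    obtain ⟨ρ, b⟩ := dif_bd (inv_mem (stb_dif h1)) R
    obtain ⟨c, c1, ρ1, c2, c3⟩ := h2 ρ
    exact ⟨c⁻¹, inv_mem c1, ρ1, fun x hx => Perm.inv_eq_iff_eq.2 (by rw [c2 _ (b x hx)]; simp),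
      fun x hx => Perm.inv_eq_iff_eq.2 (c3 x hx).symm⟩

theorem stb_lim (h1 : ∀ R : ℝ, ∃ c ∈ Stb E r, ∀ x, ‖x‖ ≤ R → g x = c x)
    (h2 : ∀ R : ℝ, ∃ c ∈ Stb E r, ∀ x, ‖x‖ ≤ R → g⁻¹ x = c x) : g ∈ Stb E r := by
  obtain ⟨c, c1, c2⟩ := h1 1
  exact stb_germ (dif_lim (fun R => (h1 R).imp fun _ h => ⟨stb_dif h.1, h.2⟩)
    fun R => (h2 R).imp fun _ h => ⟨stb_dif h.1, h.2⟩) c1 one_pos fun x hx => (c2 x hx.le).symm

end Pool.Agent.Lib.MP_a2d0bb_al
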