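import Pool.Agent.Lib.MP_a2d0bb_al.Dif

/-!
Radial diffeomorphisms.
-/

set_option autoImplicit false
set_option linter.unusedSectionVars false

open Equiv Metric Filter
open scoped Topology NNReal

namespace Pool.Agent.Lib.MP_a2d0bb_al

variable {E : Type*} [NormedAddCommGroup E] [InnerProductSpace ℝ E] [FiniteDimensional ℝ E]

/-- Increasing smooth diffeomorphisms of the line that fix a neighbourhood of the negative half. -/
def RD : Subgroup (Perm ℝ) where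
  carrier := {h | StrictMono h ∧ h ∈ Dif ℝ ⊤ ∧ ∃ ε, 0 < ε ∧ ∀ t ≤ ε, h t = t}
  one_mem' := ⟨strictMono_id, one_mem _, 1, one_pos, fun _ _ => rfl⟩
  mul_mem' := by
    rintro f g ⟨f1, f2, ε, f3, f4⟩ ⟨g1, g2, δ, g3, g4⟩
    exact ⟨f1.comp g1, mul_mem f2 g2, min ε δ, lt_min f3 g3, fun t ht => by
      rw [Perm.mul_apply, g4 t (ht.trans (min_le_right _ _)), f4 t (ht.trans (min_le_left _ _))]⟩
  inv_mem' := by
    rintro f ⟨f1, f2, ε, f3, f4⟩
    exact ⟨fun x y h => f1.lt_iff_lt.1 (by simpa using h), inv_mem f2, ε, f3,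
      fun t ht => Perm.inv_eq_iff_eq.2 (f4 t ht).symm⟩

theorem rd_mk {g : ℝ → ℝ} (h1 : ContDiff ℝ (⊤ : ℕ∞) g) (h2 : Monotone g) {ε : ℝ} (hε : 0 < ε)
    (h3 : ∀ t ≤ ε, g t = 0) : ∃ h ∈ RD, ∀ t, h t = t + g t := by
  have m : StrictMono fun t => t + g t := strictMono_id.add_monotone h2
  have c : ContDiff ℝ (⊤ : ℕ∞) fun t => t + g t := contDiff_id.add h1
  have s : Function.Surjective fun t => t + g t := c.continuous.surjective
    (tendsto_atTop_mono' atTop (by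
      filter_upwards [eventually_ge_atTop ε] with t ht
      have := h2 ht
      rw [h3 ε le_rfl] at this
      exact le_add_of_nonneg_right this) tendsto_id)
    (tendsto_id.congr' (by
      filter_upwards [eventually_le_atBot ε] with t ht
      rw [h3 t ht, add_zero, id]))
  let H : ℝ ≃ₜ ℝ := (m.orderIsoOfSurjective _ s).toHomeomorph
  have hc : ContDiff ℝ (⊤ : ℕ∞) H := c
  refine ⟨H.toEquiv, ⟨m, ⟨hc, H.contDiff_symm_deriv (f' := fun t => 1 + deriv g t)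
    (fun t => (add_pos_of_pos_of_nonneg one_pos h2.deriv_nonneg).ne') (fun t => ?_) hc⟩,
    ε, hε, fun t ht => ?_⟩, fun _ => rfl⟩
  · exact (hasDerivAt_id t).add (h1.differentiable (by simp) t).hasDerivAt
  · change t + g t = t
    rw [h3 t ht, add_zero]

theorem rad {h : Perm ℝ} (hh : h ∈ RD) :
    ∃ g ∈ Stb E ⊤, (∀ x, ‖g x‖ = h ‖x‖) ∧ ∀ x, h ‖x‖ = ‖x‖ → g x = x := by
  let R : Perm ℝ → E → E := fun h x => (h ‖x‖ / ‖x‖) • x
  have r0 : ∀ h ∈ RD, h 0 = 0 := fun h ⟨_, _, ε, h1, h2⟩ => h2 0 h1.le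
  have r1 : ∀ h ∈ RD, ∀ x, ‖R h x‖ = h ‖x‖ := fun h hh x => by
    by_cases hx : x = 0
    · simp [R, hx, r0 h hh]
    · have : 0 ≤ h ‖x‖ := by
        rw [← r0 h hh]
        exact hh.1.monotone (norm_nonneg x)
      rw [norm_smul, Real.norm_of_nonneg (by positivity), div_mul_cancel₀ _ (norm_ne_zero_iff.2 hx)]
  have r2 : ∀ h : Perm ℝ, ∀ x, h ‖x‖ = ‖x‖ → R h x = x := fun h x e => by
    by_cases hx : x = 0
    · simp [R, hx]
    · simp only [R]
      rw [e, div_self (norm_ne_zero_iff.2 hx), one_smul]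
  have r3 : ∀ h ∈ RD, ∀ x, R h⁻¹ (R h x) = x := fun h hh x => by
    by_cases hx : x = 0
    · simp [R, hx]
    · have n0 := norm_ne_zero_iff.2 hx
      have n1 : h ‖x‖ ≠ 0 := fun e => n0 (h.injective (e.trans (r0 h hh).symm))
      change (h⁻¹ ‖R h x‖ / ‖R h x‖) • (h ‖x‖ / ‖x‖) • x = x
      rw [r1 h hh, smul_smul, show h⁻¹ (h ‖x‖) = ‖x‖ by simp, div_mul_div_cancel₀ n1, div_self n0,
        one_smul]
  have r4 : ∀ h ∈ RD, ContDiff ℝ (⊤ : ℕ∞) (R h) := fun h hh => contDiff_iff_contDiffAt.2 fun x => by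
    by_cases hx : x = 0
    · obtain ⟨_, _, ε, h1, h2⟩ := hh
      refine contDiffAt_id.congr_of_eventuallyEq ?_
      filter_upwards [(isOpen_lt continuous_norm continuous_const).mem_nhds
        (show ‖x‖ < ε by simpa [hx] using h1)] with y hy using r2 h y (h2 _ (le_of_lt hy))
    · have c := contDiffAt_norm ℝ (n := (⊤ : ℕ∞)) hx
      exact ((hh.2.1.1.contDiffAt.comp x c).div c (norm_ne_zero_iff.2 hx)).smul contDiffAt_id
  obtain ⟨ε, e1, e2⟩ := hh.2.2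
  exact ⟨⟨R h, R h⁻¹, r3 h hh, r3 h⁻¹ (inv_mem hh)⟩,
    stb_in ⟨r4 h hh, r4 _ (inv_mem hh)⟩ e1 fun x hx => r2 h x (e2 _ hx.le), r1 h hh, r2 h⟩

theorem rd_step {u x : ℝ} (l : ℝ) (hu : 0 < u) (hx : u < x) (hl : 0 ≤ l) :
    ∃ h ∈ RD, (∀ t ≤ u, h t = t) ∧ ∀ t, x ≤ t → h t = t + l := by
  have p : 0 < x - u := sub_pos.2 hx
  have z : ∀ t ≤ u, l * Real.smoothTransition ((t - u) / (x - u)) = 0 := fun t ht => by
    rw [Real.smoothTransition.zero_of_nonpos (div_nonpos_of_nonpos_of_nonneg (by linarith) p.le),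
      mul_zero]
  obtain ⟨h, h1, h2⟩ := rd_mk (g := fun t => l * Real.smoothTransition ((t - u) / (x - u)))
    (contDiff_const.mul (Real.smoothTransition.contDiff.comp
      ((contDiff_id.sub contDiff_const).div_const _)))
    (fun s t hst => mul_le_mul_of_nonneg_left (Real.smoothTransition.monotone
      (div_le_div_of_nonneg_right (by linarith) p.le)) hl) hu z
  refine ⟨h, h1, fun t ht => by rw [h2, z t ht, add_zero], fun t ht => ?_⟩
  rw [h2, Real.smoothTransition.one_of_one_le ((one_le_div p).2 (by linarith)), mul_one]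

theorem rd_push {u x y v : ℝ} (hu : 0 < u) (hx : u < x) (hy : x ≤ y) (hv : y < v) :
    ∃ h ∈ RD, h x = y ∧ (∀ t ≤ u, h t = t) ∧ ∀ t, v ≤ t → h t = t := by
  obtain ⟨f, f1, f2, f3⟩ := rd_step (y - x) hu hx (sub_nonneg.2 hy)
  obtain ⟨g, g1, g2, g3⟩ := rd_step (y - x) (by linarith : 0 < y) hv (sub_nonneg.2 hy)
  refine ⟨g⁻¹ * f, mul_mem (inv_mem g1) f1, ?_, fun t ht => ?_, fun t ht => ?_⟩ <;>
    rw [Perm.mul_apply, Perm.inv_eq_iff_eq]
  · rw [f3 x le_rfl, g2 y le_rfl]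
    ring
  · rw [f2 t ht, g2 t (by linarith)]
  · rw [f3 t (by linarith), g3 t ht]

variable (E) in
/-- A radial diffeomorphism that moves radius `x` to radius `y` inside the shell from `u` to `v`. -/
theorem push {u x y v : ℝ} (hu : 0 < u) (hx : u < x) (hy : x ≤ y) (hv : y < v) :
    ∃ g ∈ Stb E ⊤, (∀ z, ‖z‖ ≤ u → g z = z) ∧ (∀ z, v ≤ ‖z‖ → g z = z) ∧
      (∀ z, x ≤ ‖z‖ ↔ y ≤ ‖g z‖) ∧ ∀ z, ‖z‖ ≤ x ↔ ‖g z‖ ≤ y := by
  obtain ⟨h, h1, h2, h3, h4⟩ := rd_push hu hx hy hv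
  obtain ⟨g, g1, g2, g3⟩ := rad (E := E) h1
  exact ⟨g, g1, fun z hz => g3 z (h3 _ hz), fun z hz => g3 z (h4 _ hz),
    fun z => by rw [g2, ← h2, h1.1.le_iff_le], fun z => by rw [g2, ← h2, h1.1.le_iff_le]⟩

end Pool.Agent.Lib.MP_a2d0bb_al
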